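import Pool.Agent.H37.UMD.Stmts2
import Pool.Agent.H86.UMC.NoiseZk

/-!
EZK: the mean of the partition function.
-/

set_option autoImplicit false

open MeasureTheory ProbabilityTheory Finset

namespace Pool.UMD

/-- The folded cell as a set. -/
def EZK_E (m : ℕ) (q : Fin m × Fin m) : Set (ℝ × ℝ) :=
  {x | fo m ⌊x.1⌋ = (q.1 : ℕ) ∧ fo m ⌊x.2⌋ = (q.2 : ℕ)}

theorem EZK_meas (m : ℕ) (q : Fin m × Fin m) : MeasurableSet (EZK_E m q) := by
  have h1 : Measurable (fun x : ℝ × ℝ => fo m ⌊x.1⌋) :=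
    (measurable_from_top (f := fo m)).comp (Int.measurable_floor.comp measurable_fst)
  have h2 : Measurable (fun x : ℝ × ℝ => fo m ⌊x.2⌋) :=
    (measurable_from_top (f := fo m)).comp (Int.measurable_floor.comp measurable_snd)
  exact (h1 (measurableSet_singleton _)).inter (h2 (measurableSet_singleton _))

theorem EZK_ind (m : ℕ) (q : Fin m × Fin m) : indFn (EZK_E m) q = iq m q.1 q.2 := by
  funext x
  unfold indFn iq EZK_E
  by_cases h : fo m ⌊x.1⌋ = (q.1 : ℕ) ∧ fo m ⌊x.2⌋ = (q.2 : ℕ)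
  · rw [Set.indicator_of_mem (by exact h), if_pos h]
  · rw [Set.indicator_of_notMem (by exact h), if_neg h]

theorem EZK_sum (m : ℕ) (f : ℕ → ℕ → ℝ) :
    ∑ q : Fin m × Fin m, f q.1 q.2 = ∑ i ∈ range m, ∑ j ∈ range m, f i j := by
  rw [Fintype.sum_prod_type]
  rw [← Fin.sum_univ_eq_sum_range (fun i => ∑ j ∈ range m, f i j) m]
  refine Finset.sum_congr rfl fun i _ => ?_
  rw [← Fin.sum_univ_eq_sum_range (fun j => f i j) m]

theorem EZK_step (hFol : SFol) (m : ℕ) (hm : 1 ≤ m) (K : ℝ) (w : ℕ → ℕ → ℝ) :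
    stepFn (EZK_E m) (fun q => w q.1 q.2 / √K) = Wf m K w := by
  funext x
  have hlt := (hFol m hm).1
  unfold stepFn Wf
  rw [Finset.sum_eq_single ((⟨fo m ⌊x.1⌋, hlt _⟩, ⟨fo m ⌊x.2⌋, hlt _⟩) : Fin m × Fin m)]
  · rw [Set.indicator_of_mem (by exact ⟨rfl, rfl⟩), mul_one]
  · intro q _ hq
    rw [Set.indicator_of_notMem, mul_zero]
    rintro ⟨h1, h2⟩
    apply hq
    ext
    · exact h1.symm
    · exact h2.symm
  · intro h
    exact absurd (Finset.mem_univ _) h

theorem EZK_av (n m : ℕ) (Φ : (Fin n → Fin m × Fin m) → (Fin n → Fin m × Fin m) → ℝ) :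
    av n m Φ = ∑ ω : (Fin n → Fin m × Fin m) × (Fin n → Fin m × Fin m),
      (1 / ((m : ℝ) ^ 2) ^ (2 * n)) * Φ ω.1 ω.2 := by
  unfold av
  rw [← Finset.mul_sum, Fintype.sum_prod_type]
  ring

/-- **EZK**. -/
theorem sEzk (hKer : SKer) (hExp : SExp) (hMmu : SMmu) (hMeu : SMeu) (hMzk : SMzk)
    (hDet : SDet) (hFol : SFol) : SEzk := by
  obtain ⟨Cκ, hC1, hK⟩ := hKer
  refine ⟨Cκ, hC1, ?_⟩
  intro D hD hDu n m K Λ k a A hm hKn hK0 hΛ hdet hA
  have hsK : 0 < √K := Real.sqrt_pos.2 hK0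
  have hs2 : (0 : ℝ) < √2 := by positivity
  rw [EZK_av]
  have hstep : ∀ cx cy : Fin n → Fin m × Fin m,
      Wf m K (wc cx cy) = stepFn (EZK_E m) (fun q => wc cx cy q.1 q.2 / √K) := fun cx cy =>
    (EZK_step hFol m hm K (wc cx cy)).symm
  simp_rw [hstep]
  have hsq2 : ∀ k : ℕ, √((2 : ℝ) ^ k) = (√2) ^ k := fun k => by
    induction k with
    | zero => simp
    | succ k ih => rw [pow_succ, pow_succ, Real.sqrt_mul (by positivity), ih]
  have hinv : ∀ k : ℕ, Cκ / √((2 : ℝ) ^ k) = Cκ * (1 / √2) ^ k := fun k => by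
    rw [hsq2, one_div, inv_pow, div_eq_mul_inv]
  have hmain := NOI_main (Q := Fin m × Fin m) (EZK_E m)
    (Ω := (Fin n → Fin m × Fin m) × (Fin n → Fin m × Fin m)) hMmu hMeu hMzk
    (EZK_meas m) Λ (72 * Cκ ^ 2 + 1) D hD (fun _ => 1 / ((m : ℝ) ^ 2) ^ (2 * n))
    (fun _ => by positivity) (fun ω q => wc ω.1 ω.2 q.1 q.2 / √K)
    (fun k A => A.det = 2 ^ k ∧ ∀ z, nm (A.ap z) ≤ 2 * m * nm z)
    (C := Cκ) (c := 2) (H₀ := √K) (by linarith) (by norm_num) hsK.le
    (by
      have h1 : 1.41 ≤ √2 := by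
        rw [show (1.41 : ℝ) = √(1.41 ^ 2) by rw [Real.sqrt_sq (by norm_num)]]
        exact Real.sqrt_le_sqrt (by norm_num)
      nlinarith)
    (by nlinarith)
    (by
      intro F hF
      set f : ℕ → ℕ → ℝ := fun i j => if h : i < m ∧ j < m then F (⟨i, h.1⟩, ⟨j, h.2⟩) else 0
        with hf
      have hfq : ∀ q : Fin m × Fin m, f q.1 q.2 = F q := by
        intro q
        rw [hf]
        simp only
        rw [dif_pos ⟨q.1.2, q.2.2⟩]
      have hfb : ∀ i j, |f i j| ≤ √K := by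
        intro i j
        by_cases h : i < m ∧ j < m
        · have := hfq (⟨i, h.1⟩, ⟨j, h.2⟩)
          simp only at this
          rw [this]
          exact hF _
        · rw [hf]
          simp only
          rw [dif_neg h, abs_zero]
          exact hsK.le
      have h1 := hExp n m K hm hKn hK0 f hfb
      rw [EZK_av] at h1
      have h2 : pr m f f = ∑ q, F q ^ 2 := by
        unfold pr
        rw [← EZK_sum m (fun i j => f i j * f i j)]
        refine Finset.sum_congr rfl fun q _ => ?_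
        rw [hfq, sq]
      have h3 : ∀ cx cy : Fin n → Fin m × Fin m, pr m (wc cx cy) f / √K =
          ∑ q : Fin m × Fin m, wc cx cy q.1 q.2 / √K * F q := by
        intro cx cy
        unfold pr
        rw [← EZK_sum m (fun i j => wc cx cy i j * f i j), Finset.sum_div]
        refine Finset.sum_congr rfl fun q _ => ?_
        rw [hfq]
        ring
      rw [h2] at h1
      simp_rw [h3] at h1
      exact h1)
    (by
      rintro k A ⟨h1, h2⟩ e he
      obtain ⟨h3, h4⟩ := hDet A e (hDu e he)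
      refine ⟨?_, fun z => ?_⟩
      · rw [h3, h1, pow_succ]
        ring
      · obtain ⟨z', hz', hz⟩ := h4 z
        rw [hz]
        exact (h2 z').trans (mul_le_mul_of_nonneg_left hz' (by positivity)))
    (by
      rintro k A ⟨h1, h2⟩ e he a g i q
      have hpos : 0 < A.det := by rw [h1]; positivity
      obtain ⟨h3, -⟩ := hK m A a e g hm hpos h2 (hDu e he)
      obtain ⟨h4, h5, h6⟩ := h3 q.1 q.2
      rw [h1, hinv] at h4 h5 h6
      rw [EZK_ind]
      fin_cases i
      · exact h4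
      · exact h5
      · exact h6)
    (by
      rintro k A ⟨h1, h2⟩ e he a g i
      have hpos : 0 < A.det := by rw [h1]; positivity
      obtain ⟨-, h4, h5, h6⟩ := hK m A a e g hm hpos h2 (hDu e he)
      rw [h1, hsq2] at h4 h5 h6
      simp_rw [EZK_ind]
      rw [EZK_sum m (fun r s => |xiI (iq m r s) a A e g i|)]
      fin_cases i
      · exact h4
      · exact h5
      · exact h6)
    k a A ⟨hdet, hA⟩
  rw [mul_comm (729 : ℝ)]
  exact hmain

end Pool.UMD
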