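import Pool.Agent.H37.UMD.Stmts2

/-!
# Ultimate matching, module ROO: bounds at the root of the tree
-/

set_option autoImplicit false

open MeasureTheory ProbabilityTheory Finset

namespace Pool.UMD

theorem ROO_markov {n m : ℕ} {E : (Fin n → Fin m × Fin m) → (Fin n → Fin m × Fin m) → Prop}
    {Φ : (Fin n → Fin m × Fin m) → (Fin n → Fin m × Fin m) → ℝ} (h0 : ∀ cx cy, 0 ≤ Φ cx cy)
    (h1 : ∀ cx cy, E cx cy → 1 ≤ Φ cx cy) : Pool.UMC.frac n m E ≤ av n m Φ := by
  classical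
  unfold Pool.UMC.frac av
  refine div_le_div_of_nonneg_right ?_ (by positivity)
  rw [← sum_product', univ_product_univ, Finset.card_filter, Nat.cast_sum]
  refine sum_le_sum fun w _ => ?_
  by_cases h : E w.1 w.2
  · simp only [if_pos h, Nat.cast_one]
    exact h1 _ _ h
  · simp only [if_neg h, Nat.cast_zero]
    exact h0 _ _

theorem ROO_union {n m : ℕ} {ι : Type} (S : Finset ι)
    {E : (Fin n → Fin m × Fin m) → (Fin n → Fin m × Fin m) → Prop}
    (F : ι → (Fin n → Fin m × Fin m) → (Fin n → Fin m × Fin m) → Prop)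
    (h : ∀ cx cy, E cx cy → ∃ i ∈ S, F i cx cy) :
    Pool.UMC.frac n m E ≤ ∑ i ∈ S, Pool.UMC.frac n m (F i) := by
  classical
  unfold Pool.UMC.frac
  rw [← sum_div]
  refine div_le_div_of_nonneg_right ?_ (by positivity)
  rw [← Nat.cast_sum]
  refine Nat.cast_le.mpr ?_
  refine le_trans (card_le_card ?_) (card_biUnion_le (s := S) (t := fun i =>
    univ.filter fun w : (Fin n → Fin m × Fin m) × (Fin n → Fin m × Fin m) => F i w.1 w.2))
  intro w hw
  simp only [mem_filter, mem_univ, true_and] at hw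
  obtain ⟨i, hi, hF⟩ := h _ _ hw
  simp only [mem_biUnion, mem_filter, mem_univ, true_and]
  exact ⟨i, hi, hF⟩

theorem ROO_tail (hExp : SExp) (n m : ℕ) (K C : ℝ) (hm : 1 ≤ m) (hK : K = n / (m : ℝ) ^ 2)
    (hK1 : 1 ≤ K) (hC : 1 ≤ C) (f : ℕ → ℕ → ℝ) (hf : ∀ i j, |f i j| ≤ C / (m : ℝ) ^ 2)
    (hs : ∑ i ∈ range m, ∑ j ∈ range m, |f i j| ≤ 1) :
    Pool.UMC.frac n m (fun cx cy => (C + 2) * √K / m < |pr m (wc cx cy) f / √K|) ≤
      2 * Real.exp (-K) := by
  have hmR : (0:ℝ) < m := by exact_mod_cast hm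
  have hmR1 : (1:ℝ) ≤ m := by exact_mod_cast hm
  have hK0 : 0 < K := by linarith
  have hsK : 0 < √K := Real.sqrt_pos.mpr hK0
  have hsq : √K * √K = K := Real.mul_self_sqrt hK0.le
  have hC0 : 0 < C := by linarith
  set T : ℝ := m * √K / C with hT
  have hT0 : 0 < T := by positivity
  -- bounds for F = T f
  have hFb : ∀ σ : ℝ, |σ| = 1 → ∀ i j, |σ * T * f i j| ≤ √K := by
    intro σ hσ i j
    rw [abs_mul, abs_mul, hσ, one_mul, abs_of_pos hT0]
    calc T * |f i j| ≤ T * (C / (m : ℝ) ^ 2) := by gcongr; exact hf i j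
      _ = √K / m := by rw [hT]; field_simp
      _ ≤ √K / 1 := by gcongr
      _ = √K := by ring
  have hFq : ∀ σ : ℝ, |σ| = 1 →
      pr m (fun i j => σ * T * f i j) (fun i j => σ * T * f i j) ≤ K / C := by
    intro σ hσ
    have hσ2 : σ ^ 2 = 1 := by rw [← sq_abs, hσ]; norm_num
    unfold pr
    have h1 : ∀ i ∈ range m, ∀ j ∈ range m, σ * T * f i j * (σ * T * f i j) ≤
        T ^ 2 * (C / (m : ℝ) ^ 2) * |f i j| := by
      intro i _ j _
      have e1 : σ * T * f i j * (σ * T * f i j) = T ^ 2 * (|f i j| * |f i j|) := by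
        rw [abs_mul_abs_self]
        linear_combination (T ^ 2 * f i j * f i j) * hσ2
      rw [e1]
      have := hf i j
      have h2 : |f i j| * |f i j| ≤ C / (m : ℝ) ^ 2 * |f i j| :=
        mul_le_mul_of_nonneg_right this (abs_nonneg _)
      calc T ^ 2 * (|f i j| * |f i j|) ≤ T ^ 2 * (C / (m : ℝ) ^ 2 * |f i j|) := by gcongr
        _ = _ := by ring
    calc ∑ i ∈ range m, ∑ j ∈ range m, σ * T * f i j * (σ * T * f i j)
        ≤ ∑ i ∈ range m, ∑ j ∈ range m, T ^ 2 * (C / (m : ℝ) ^ 2) * |f i j| :=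
          sum_le_sum fun i hi => sum_le_sum fun j hj => h1 i hi j hj
      _ = T ^ 2 * (C / (m : ℝ) ^ 2) * ∑ i ∈ range m, ∑ j ∈ range m, |f i j| := by
          simp only [mul_sum]
      _ ≤ T ^ 2 * (C / (m : ℝ) ^ 2) * 1 := by gcongr
      _ = (√K * √K) / C := by rw [hT]; field_simp
      _ = K / C := by rw [hsq]
  have hpr : ∀ (σ : ℝ) (w : ℕ → ℕ → ℝ),
      pr m w (fun i j => σ * T * f i j) / √K = σ * T * (pr m w f / √K) := by
    intro σ w
    have h1 : ∑ i ∈ range m, ∑ j ∈ range m, w i j * (σ * T * f i j) =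
        σ * T * ∑ i ∈ range m, ∑ j ∈ range m, w i j * f i j := by
      rw [mul_sum]
      refine sum_congr rfl fun i _ => ?_
      rw [mul_sum]
      refine sum_congr rfl fun j _ => ?_
      ring
    simp only [pr]
    rw [h1]
    ring
  have hE : ∀ σ : ℝ, |σ| = 1 →
      av n m (fun cx cy => Real.exp (pr m (wc cx cy) (fun i j => σ * T * f i j) / √K)) ≤
        Real.exp (2 * (K / C)) := by
    intro σ hσ
    refine (hExp n m K hm hK hK0 _ (hFb σ hσ)).trans ?_
    have := hFq σ hσ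
    gcongr
  set q : ℝ := Real.exp (-(K + 2 * (K / C))) with hq
  have hq0 : 0 < q := Real.exp_pos _
  have havadd : ∀ Φ Ψ : (Fin n → Fin m × Fin m) → (Fin n → Fin m × Fin m) → ℝ,
      av n m (fun cx cy => q * Φ cx cy + q * Ψ cx cy) = q * av n m Φ + q * av n m Ψ := by
    intro Φ Ψ
    unfold av
    simp only [sum_add_distrib, ← mul_sum]
    ring
  have hmk : Pool.UMC.frac n m (fun cx cy => (C + 2) * √K / m < |pr m (wc cx cy) f / √K|) ≤
      av n m (fun cx cy => q * Real.exp (pr m (wc cx cy) (fun i j => 1 * T * f i j) / √K) +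
        q * Real.exp (pr m (wc cx cy) (fun i j => (-1) * T * f i j) / √K)) := by
    refine ROO_markov (fun cx cy => by positivity) ?_
    intro cx cy hE'
    rw [hpr, hpr]
    set X : ℝ := pr m (wc cx cy) f / √K with hX
    have hkey : K + 2 * (K / C) < T * |X| := by
      have h1 : T * ((C + 2) * √K / m) = K + 2 * (K / C) := by
        rw [hT]
        have : (m:ℝ) * √K / C * ((C + 2) * √K / m) = (√K * √K) * (C + 2) / C := by field_simp
        rw [this, hsq]
        field_simp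
      rw [← h1]
      exact mul_lt_mul_of_pos_left hE' hT0
    rcases le_total 0 X with h0 | h0
    · rw [abs_of_nonneg h0] at hkey
      have h2 : 1 ≤ q * Real.exp (1 * T * X) := by
        rw [hq, ← Real.exp_add]
        refine Real.one_le_exp ?_
        linarith
      have h3 : 0 < q * Real.exp (-1 * T * X) := by positivity
      linarith
    · rw [abs_of_nonpos h0] at hkey
      have h2 : 1 ≤ q * Real.exp (-1 * T * X) := by
        rw [hq, ← Real.exp_add]
        refine Real.one_le_exp ?_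
        linarith
      have h3 : 0 < q * Real.exp (1 * T * X) := by positivity
      linarith
  refine hmk.trans ?_
  rw [havadd]
  have h1 := hE 1 (by norm_num)
  have h2 := hE (-1) (by norm_num)
  have h3 : q * Real.exp (2 * (K / C)) = Real.exp (-K) := by
    rw [hq, ← Real.exp_add]
    congr 1
    ring
  have h4 := mul_le_mul_of_nonneg_left h1 hq0.le
  have h5 := mul_le_mul_of_nonneg_left h2 hq0.le
  rw [h3] at h4 h5
  linarith

theorem ROO_sqrt (k : ℕ) : √((2:ℝ) ^ (2 * k)) = 2 ^ k := by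
  rw [show (2:ℝ) ^ (2 * k) = (2 ^ k) ^ 2 by rw [← pow_mul]; congr 1; ring]
  exact Real.sqrt_sq (by positivity)

theorem ROO_A0 (k : ℕ) : A0 (2 * k) = ⟨2 ^ k, 0, 0, 2 ^ k⟩ := by
  unfold A0
  rw [ROO_sqrt]

theorem ROO_fo (m : ℕ) (i p : ℤ) : fo m (i + 2 * m * p) = fo m i := by
  unfold fo
  have h : (i + 2 * m * p) % (2 * m) = i % (2 * m) := Int.add_mul_emod_self_left _ _ _
  simp only [h]

theorem ROO_Wf (m : ℕ) (K : ℝ) (w : ℕ → ℕ → ℝ) (x : ℝ × ℝ) (p q : ℤ) :
    Wf m K w (x.1 + 2 * m * p, x.2 + 2 * m * q) = Wf m K w x := by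
  unfold Wf
  have h1 : ∀ (t : ℝ) (r : ℤ), ⌊t + 2 * m * r⌋ = ⌊t⌋ + 2 * m * r := by
    intro t r
    have : t + 2 * m * r = t + ((2 * m * r : ℤ) : ℝ) := by push_cast; ring
    rw [this, Int.floor_add_intCast]
  simp only [h1, ROO_fo]

theorem ROO_shift (m : ℕ) (K : ℝ) (w : ℕ → ℕ → ℝ) (a : ℝ × ℝ) (A : Mat) (p q : ℤ) (z : ℝ × ℝ) :
    Wf m K w ((a.1 + 2 * m * p, a.2 + 2 * m * q) + A.ap z) = Wf m K w (a + A.ap z) := by
  have h := ROO_Wf m K w (a + A.ap z) p q
  rw [← h]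
  congr 1
  ext
  · simp; ring
  · simp; ring

theorem ROO_mu (m : ℕ) (K : ℝ) (w : ℕ → ℕ → ℝ) (a : ℝ × ℝ) (A : Mat) (p q : ℤ) :
    mu (Wf m K w) (a.1 + 2 * m * p, a.2 + 2 * m * q) A = mu (Wf m K w) a A ∧
    mz (Wf m K w) (a.1 + 2 * m * p, a.2 + 2 * m * q) A = mz (Wf m K w) a A := by
  unfold mu mz
  constructor <;> simp only [ROO_shift]

theorem sRoo (hExp : SExp) (hLin : SLin) (hMzb : SMzb) (hLip : SLip) (hFol : SFol) : SRoo := by
  obtain ⟨C, hC, hMz⟩ := hMzb
  obtain ⟨CL, hCL, hL⟩ := hLip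
  refine ⟨(C + 2) + CL, by linarith, ?_⟩
  intro n k K hK hK1
  set m : ℕ := 2 ^ k with hmdef
  have hm1 : 1 ≤ m := Nat.one_le_two_pow
  have hmR : (0:ℝ) < m := by exact_mod_cast hm1
  have hmk : (m : ℝ) = 2 ^ k := by rw [hmdef]; push_cast; rfl
  have hm2 : (m : ℝ) ^ 2 = 4 ^ k := by
    rw [hmk, ← pow_mul, mul_comm, pow_mul]
    norm_num
  have hK' : K = n / (m : ℝ) ^ 2 := by rw [hm2]; exact hK
  have hK0 : 0 < K := by linarith
  have hsK : 0 < √K := Real.sqrt_pos.mpr hK0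
  have hsq : √K * √K = K := Real.mul_self_sqrt hK0.le
  set A : Mat := A0 (2 * k) with hA
  have hAe : A = ⟨2 ^ k, 0, 0, 2 ^ k⟩ := ROO_A0 k
  have hdet : A.det = (m : ℝ) ^ 2 := by
    rw [hAe, hmk]
    unfold Mat.det
    ring
  have hdet0 : 0 < A.det := by rw [hdet]; positivity
  have hnm : ∀ z, nm (A.ap z) ≤ 2 * m * nm z := by
    intro z
    rw [hAe]
    unfold Mat.ap nm
    have h2 : ((2:ℝ) ^ k * z.1 + 0 * z.2) ^ 2 + (0 * z.1 + 2 ^ k * z.2) ^ 2 =
        (m : ℝ) ^ 2 * (z.1 ^ 2 + z.2 ^ 2) := by rw [hmk]; ring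
    simp only [h2]
    rw [Real.sqrt_mul (by positivity), Real.sqrt_sq hmR.le]
    have h3 : 0 ≤ √(z.1 ^ 2 + z.2 ^ 2) := Real.sqrt_nonneg _
    nlinarith [mul_nonneg hmR.le h3]
  -- the three coefficient functions at the point `b`
  let B : ℕ × ℕ → ℝ × ℝ := fun b => ((b.1 : ℝ), (b.2 : ℝ))
  let f : Fin 3 → ℕ × ℕ → ℕ → ℕ → ℝ := fun r b i j =>
    if r = 0 then mu (iq m i j) (B b) A else
    if r = 1 then (mz (iq m i j) (B b) A).1 else (mz (iq m i j) (B b) A).2
  have hf : ∀ r b, (∀ i j, |f r b i j| ≤ C / (m : ℝ) ^ 2) ∧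
      ∑ i ∈ range m, ∑ j ∈ range m, |f r b i j| ≤ 1 := by
    intro r b
    obtain ⟨h1, h2, h3, h4⟩ := hMz m A (B b) hm1 hdet0 hnm
    rw [hdet] at h1
    fin_cases r
    · refine ⟨fun i j => ?_, ?_⟩
      · simp only [f]
        simp only [Fin.zero_eta, Fin.isValue, if_true]
        rw [abs_of_nonneg (h1 i j).1]
        exact (h1 i j).2.1
      · refine le_trans (le_of_eq ?_) h2
        refine sum_congr rfl fun i _ => sum_congr rfl fun j _ => ?_
        simp only [f, Fin.zero_eta, Fin.isValue, if_true]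
        exact abs_of_nonneg (h1 i j).1
    · refine ⟨fun i j => ?_, ?_⟩
      · simpa [f] using (h1 i j).2.2.1
      · simpa [f] using h3
    · refine ⟨fun i j => ?_, ?_⟩
      · simpa [f] using (h1 i j).2.2.2
      · simpa [f] using h4
  -- the events
  let E : Fin 3 × (ℕ × ℕ) → (Fin n → Fin m × Fin m) → (Fin n → Fin m × Fin m) → Prop :=
    fun rb cx cy => (C + 2) * √K / m < |pr m (wc cx cy) (f rb.1 rb.2) / √K|
  have hEt : ∀ rb, Pool.UMC.frac n m (E rb) ≤ 2 * Real.exp (-K) := fun rb =>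
    ROO_tail hExp n m K C hm1 hK' hK1 hC _ (hf rb.1 rb.2).1 (hf rb.1 rb.2).2
  let S : Finset (Fin 3 × (ℕ × ℕ)) := univ ×ˢ (range (2 * m) ×ˢ range (2 * m))
  have hScard : (S.card : ℝ) = 12 * (m : ℝ) ^ 2 := by
    simp only [S, card_product, card_univ, Fintype.card_fin, card_range]
    push_cast
    ring
  have hun : Pool.UMC.frac n m (fun cx cy => (∀ i j, |wc cx cy i j| ≤ K) ∧ ¬ ∀ a : ℝ × ℝ,
      |mu (Wf m K (wc cx cy)) a A| ≤ ((C + 2) + CL) * √K / 2 ^ k ∧
      |(mz (Wf m K (wc cx cy)) a A).1| ≤ ((C + 2) + CL) * √K / 2 ^ k ∧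
      |(mz (Wf m K (wc cx cy)) a A).2| ≤ ((C + 2) + CL) * √K / 2 ^ k) ≤
      ∑ rb ∈ S, Pool.UMC.frac n m (E rb) := by
    refine ROO_union S E ?_
    intro cx cy hbad
    obtain ⟨hw, hbad⟩ := hbad
    by_contra hno
    push Not at hno
    apply hbad
    intro a
    set W := Wf m K (wc cx cy) with hW
    have hBd : Bd W √K := by
      constructor
      · exact ((hFol m hm1).2.2 (fun i j => wc cx cy i j / √K)).1
      · intro x
        rw [hW]
        unfold Wf
        rw [abs_div, abs_of_pos hsK, div_le_iff₀ hsK, hsq]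
        exact hw _ _
    -- the integer point
    set i1 : ℤ := ⌊a.1⌋ with hi1
    set i2 : ℤ := ⌊a.2⌋ with hi2
    have h2m : (0:ℤ) < 2 * m := by positivity
    set b : ℕ × ℕ := ((i1 % (2 * m)).toNat, (i2 % (2 * m)).toNat) with hb
    have hb1 : ((b.1 : ℤ)) = i1 % (2 * m) := Int.toNat_of_nonneg (Int.emod_nonneg _ h2m.ne')
    have hb2 : ((b.2 : ℤ)) = i2 % (2 * m) := Int.toNat_of_nonneg (Int.emod_nonneg _ h2m.ne')
    have hbl1 : b.1 < 2 * m := by
      have := Int.emod_lt_of_pos i1 h2m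
      rw [← hb1] at this
      exact_mod_cast this
    have hbl2 : b.2 < 2 * m := by
      have := Int.emod_lt_of_pos i2 h2m
      rw [← hb2] at this
      exact_mod_cast this
    have hbS : ∀ r, (r, b) ∈ S := fun r => by
      simp only [S, mem_product, mem_univ, true_and, mem_range]
      exact ⟨hbl1, hbl2⟩
    have hreal : ∀ (i : ℤ) (c : ℕ), (c : ℤ) = i % (2 * m) →
        (i : ℝ) = (c : ℝ) + 2 * m * ((i / (2 * m) : ℤ) : ℝ) := by
      intro i c hc
      have h := Int.emod_add_mul_ediv i (2 * m)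
      rw [← hc] at h
      have h' : ((i : ℤ) : ℝ) = (((c : ℤ) + 2 * (m : ℤ) * (i / (2 * (m : ℤ))) : ℤ) : ℝ) := by
        rw [h]
      rw [h']
      push_cast
      ring
    have hpt : ((i1 : ℝ), (i2 : ℝ)) = ((B b).1 + 2 * m * ((i1 / (2 * m) : ℤ) : ℝ),
        (B b).2 + 2 * m * ((i2 / (2 * m) : ℤ) : ℝ)) := by
      ext
      · exact hreal i1 b.1 hb1
      · exact hreal i2 b.2 hb2
    have hper := ROO_mu m K (wc cx cy) (B b) A (i1 / (2 * m)) (i2 / (2 * m))
    rw [← hpt] at hper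
    have hlip := hL W √K hBd (2 ^ k) a ((i1 : ℝ), (i2 : ℝ)) (one_le_pow₀ (by norm_num))
      (by
        have h1 := Int.floor_le a.1
        have h2 := (Int.lt_floor_add_one a.1).le
        rw [abs_le]
        constructor <;> simp only [hi1] <;> linarith)
      (by
        have h1 := Int.floor_le a.2
        have h2 := (Int.lt_floor_add_one a.2).le
        rw [abs_le]
        constructor <;> simp only [hi2] <;> linarith)
    rw [← hAe] at hlip
    rw [← hW] at hper
    rw [hper.1, hper.2] at hlip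
    obtain ⟨l0, l1, l2, -⟩ := hLin m K (wc cx cy) A (B b) hm1
    rw [← hW] at l0 l1 l2
    have n0 := hno (0, b) (hbS 0)
    have n1 := hno (1, b) (hbS 1)
    have n2 := hno (2, b) (hbS 2)
    simp only [E] at n0 n1 n2
    have e0 : f 0 b = fun i j => mu (iq m i j) (B b) A := by ext i j; simp [f]
    have e1 : f 1 b = fun i j => (mz (iq m i j) (B b) A).1 := by ext i j; simp [f]
    have e2 : f 2 b = fun i j => (mz (iq m i j) (B b) A).2 := by ext i j; simp [f]
    rw [e0, ← l0] at n0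
    rw [e1, ← l1] at n1
    rw [e2, ← l2] at n2
    have hn0 := not_lt.mp n0
    have hn1 := not_lt.mp n1
    have hn2 := not_lt.mp n2
    rw [hmk] at hn0 hn1 hn2
    have hsum : ((C + 2) + CL) * √K / 2 ^ k = (C + 2) * √K / 2 ^ k + CL * √K / 2 ^ k := by ring
    rw [hsum]
    refine ⟨?_, ?_, ?_⟩
    · have := abs_sub_abs_le_abs_sub (mu W a A) (mu W (B b) A)
      linarith [hlip.1]
    · have := abs_sub_abs_le_abs_sub (mz W a A).1 (mz W (B b) A).1
      linarith [hlip.2.1]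
    · have := abs_sub_abs_le_abs_sub (mz W a A).2 (mz W (B b) A).2
      linarith [hlip.2.2]
  refine hun.trans ?_
  calc ∑ rb ∈ S, Pool.UMC.frac n m (E rb) ≤ ∑ _rb ∈ S, 2 * Real.exp (-K) :=
        sum_le_sum fun rb _ => hEt rb
    _ = 24 * (4:ℝ) ^ k * Real.exp (-K) := by
        rw [sum_const, nsmul_eq_mul, hScard, hm2]
        ring
    _ ≤ 100 * (4:ℝ) ^ k * Real.exp (-K) := by
        gcongr
        norm_num

end Pool.UMD
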